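import Pool.Graph.R_seed8.Results.MP_81f9fb_co.GirthBound

/-!
The vertex-transitive digraphs with fewer than `(d+1)(g-1)-1` vertices.
-/

namespace Pool.Agent.H52.VTD

open Pool.Agent.Results.MP_81f9fb_co.GirthBound

/-- `Chain g [e_1, ..., e_(k-1)] e s m V X`: `X` is the iterated lexicographic product
`X_1[X_2[...[X_k[E]]...]]`, `k ≥ 1`, where `X_i` (`i < k`) is the Cayley digraph of the integers mod
`e_i (g-1) + 1` with connection set `{1, ..., e_i}`, `e_i ≥ 1`; `X_k` is the Cayley digraph of the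
integers mod `e (g-1) + 1 + s` with connection set `{1, ..., e}`, `e ≥ 1`; and `E` has `m ≥ 1`
vertices and no arc. -/
inductive Chain (g : ℕ) : List ℕ → ℕ → ℕ → ℕ → (V : Type) → Arcs V → Prop
  | last (e s m : ℕ) (he : 1 ≤ e) (hm : 1 ≤ m) :
      Chain g [] e s m (ZMod (e * (g - 1) + 1 + s) × ZMod m)
        (lexProd (circ (e * (g - 1) + 1 + s) e) (circ m 0))
  | step (a : ℕ) (l : List ℕ) (e s m : ℕ) (ha : 1 ≤ a) (W : Type) (Y : Arcs W)
      (hY : Chain g l e s m W Y) :
      Chain g (a :: l) e s m (ZMod (a * (g - 1) + 1) × W) (lexProd (circ (a * (g - 1) + 1) a) Y)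

/-- The digraphs `X` and `Y` are isomorphic. -/
def Iso {V W : Type} (X : Arcs V) (Y : Arcs W) : Prop :=
  ∃ e : V ≃ W, ∀ x y, X x y ↔ Y (e x) (e y)

/-- `X` is isomorphic to a digraph `Y` with `Chain g l e s m W Y`. -/
def IsoChain (g : ℕ) (l : List ℕ) (e s m : ℕ) {V : Type} (X : Arcs V) : Prop :=
  ∃ (W : Type) (Y : Arcs W), Chain g l e s m W Y ∧ Iso X Y

theorem IsoChain.iso {g : ℕ} {l : List ℕ} {e s m : ℕ} {V W : Type} {X : Arcs V} {Y : Arcs W}
    (f : V ≃ W) (h : ∀ x y, X x y ↔ Y (f x) (f y)) (hY : IsoChain g l e s m Y) :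
    IsoChain g l e s m X := by
  obtain ⟨U, Z, hZ, f', hf⟩ := hY
  refine ⟨U, Z, hZ, f.trans f', ?_⟩
  intro x y
  rw [h, hf]
  rfl

theorem natCast_inj' {n a b : ℕ} (ha : a < n) (hb : b < n)
    (h : (a : ZMod n) = (b : ZMod n)) : a = b := by
  have h1 := (ZMod.natCast_eq_natCast_iff' a b n).1 h
  rwa [Nat.mod_eq_of_lt ha, Nat.mod_eq_of_lt hb] at h1

theorem circ_vt (n d : ℕ) : VertexTransitive (circ n d) := by
  intro u v
  refine ⟨Equiv.addRight (v - u), ?_, by simp⟩
  intro x y
  simp only [circ, Equiv.coe_addRight]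
  constructor
  · rintro ⟨k, h1, h2, h4⟩
    exact ⟨k, h1, h2, by linear_combination h4⟩
  · rintro ⟨k, h1, h2, h4⟩
    exact ⟨k, h1, h2, by linear_combination h4⟩

theorem circ_outdeg {n d : ℕ} (hn : d < n) (v : ZMod n) : outdeg (circ n d) v = d := by
  have h : {w | circ n d v w} =
      ((Finset.Icc 1 d).image (fun k : ℕ => v + (k : ZMod n)) : Set (ZMod n)) := by
    ext w
    simp only [Set.mem_ofPred_eq, circ, Finset.coe_image, Set.mem_image, Finset.mem_coe,
      Finset.mem_Icc]
    constructor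
    · rintro ⟨k, h1, h2, h4⟩
      exact ⟨k, ⟨h1, h2⟩, h4.symm⟩
    · rintro ⟨k, ⟨h1, h2⟩, h4⟩
      exact ⟨k, h1, h2, h4.symm⟩
  unfold outdeg
  rw [h]
  have h2 : Set.InjOn (fun k : ℕ => v + (k : ZMod n)) (Finset.Icc 1 d : Finset ℕ) := by
    intro a ha b hb hab
    simp only [Finset.coe_Icc, Set.mem_Icc] at ha hb
    have h3 : (a : ZMod n) = (b : ZMod n) := by simpa using hab
    exact natCast_inj' (by omega) (by omega) h3
  rw [Set.ncard_coe_finset, Finset.card_image_of_injOn h2, Nat.card_Icc]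
  omega

theorem circ_loop {n d : ℕ} (hn : d < n) (x : ZMod n) : ¬ circ n d x x := by
  rintro ⟨k, h1, h2, h4⟩
  have h5 : ((0 : ℕ) : ZMod n) = ((k : ℕ) : ZMod n) := by
    push_cast
    linear_combination h4
  have := natCast_inj' (by omega) (by omega) h5
  omega

theorem lex_outdeg {V W : Type} [Finite V] [Finite W] {X : Arcs V} {Y : Arcs W} (x : V) (w : W)
    (hx : ¬ X x x) :
    outdeg (lexProd X Y) (x, w) = outdeg X x * Nat.card W + outdeg Y w := by
  have h : {p | lexProd X Y (x, w) p} =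
      {a | X x a} ×ˢ (Set.univ : Set W) ∪ ({x} : Set V) ×ˢ {b | Y w b} := by
    ext p
    simp only [Set.mem_ofPred_eq, lexProd, Set.mem_union, Set.mem_prod, Set.mem_univ, and_true,
      Set.mem_singleton_iff]
    rw [@eq_comm _ x p.1]
  unfold outdeg
  rw [h, Set.ncard_union_eq ?_ (Set.toFinite _) (Set.toFinite _), Set.ncard_prod, Set.ncard_prod,
    Set.ncard_univ, Set.ncard_singleton, one_mul]
  rw [Set.disjoint_left]
  rintro ⟨a, b⟩ ⟨h1, -⟩ ⟨h2, -⟩
  simp only [Set.mem_ofPred_eq, Set.mem_singleton_iff] at h1 h2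
  subst h2
  exact hx h1

theorem Wk_hom {V W : Type} {X : Arcs V} {Y : Arcs W} (f : V → W)
    (h : ∀ x y, X x y → Y (f x) (f y)) {k : ℕ} {x y : V} (hw : Wk X k x y) :
    Wk Y k (f x) (f y) := by
  induction k generalizing y with
  | zero => exact congrArg f hw
  | succ k ih =>
    obtain ⟨z, hz, hzy⟩ := hw
    exact ⟨f z, ih hz, h _ _ hzy⟩

theorem NC_hom {V W : Type} {X : Arcs V} {Y : Arcs W} (f : V → W)
    (h : ∀ x y, X x y → Y (f x) (f y)) {m : ℕ} (hY : NC Y m) : NC X m :=
  fun k h1 h2 v hv => hY k h1 h2 (f v) (Wk_hom f h hv)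

theorem NC_left {V W : Type} {X : Arcs V} {Y : Arcs W} (w : W) {m : ℕ}
    (h : NC (lexProd X Y) m) : NC X m :=
  NC_hom (fun x => (x, w)) (fun _ _ hxy => Or.inl hxy) h

theorem NC_right {V W : Type} {X : Arcs V} {Y : Arcs W} (v : V) {m : ℕ}
    (h : NC (lexProd X Y) m) : NC Y m :=
  NC_hom (fun x => (v, x)) (fun _ _ hxy => Or.inr ⟨rfl, hxy⟩) h

theorem Wk_lex {V W : Type} {X : Arcs V} {Y : Arcs W} {k : ℕ} {p q : V × W}
    (h : Wk (lexProd X Y) k p q) :
    (∃ j, 1 ≤ j ∧ j ≤ k ∧ Wk X j p.1 q.1) ∨ (p.1 = q.1 ∧ Wk Y k p.2 q.2) := by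
  induction k generalizing q with
  | zero =>
    right
    have h' : p = q := h
    subst h'
    exact ⟨rfl, rfl⟩
  | succ k ih =>
    obtain ⟨z, hz, hzq⟩ := h
    rcases ih hz with ⟨j, h1, h2, h3⟩ | ⟨h1, h2⟩
    · left
      rcases hzq with h4 | ⟨h4, -⟩
      · exact ⟨j + 1, by omega, by omega, z.1, h3, h4⟩
      · refine ⟨j, h1, by omega, ?_⟩
        rw [← h4]; exact h3
    · rcases hzq with h4 | ⟨h4, h5⟩
      · left
        refine ⟨1, le_rfl, by omega, ?_⟩
        rw [h1]
        exact Wk_one h4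
      · right
        exact ⟨h1.trans h4, z.2, h2, h5⟩

theorem NC_lex {V W : Type} {X : Arcs V} {Y : Arcs W} {m : ℕ} (hX : NC X m) (hY : NC Y m) :
    NC (lexProd X Y) m := by
  intro k h1 h2 p hp
  rcases Wk_lex hp with ⟨j, h3, h4, h5⟩ | ⟨-, h3⟩
  · exact hX j h3 (by omega) _ h5
  · exact hY k h1 h2 _ h3

theorem Wk_circ {n d k : ℕ} {x y : ZMod n} (h : Wk (circ n d) k x y) :
    ∃ a : ℕ, k ≤ a ∧ a ≤ d * k ∧ y = x + (a : ZMod n) := by
  induction k generalizing y with
  | zero =>
    have h' : x = y := h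
    exact ⟨0, le_rfl, by omega, by simp [h']⟩
  | succ k ih =>
    obtain ⟨z, hz, b, hb1, hb2, hb3⟩ := h
    obtain ⟨a, ha1, ha2, ha3⟩ := ih hz
    refine ⟨a + b, by omega, ?_, ?_⟩
    · have : d * (k + 1) = d * k + d := by ring
      omega
    · rw [hb3, ha3]; push_cast; ring

theorem NC_circ {n d m : ℕ} (h : d * m < n) : NC (circ n d) m := by
  intro k h1 h2 v hv
  obtain ⟨a, ha1, ha2, ha3⟩ := Wk_circ hv
  have h3 : ((0 : ℕ) : ZMod n) = ((a : ℕ) : ZMod n) := by
    push_cast
    linear_combination ha3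
  have h4 : d * k ≤ d * m := Nat.mul_le_mul_left _ h2
  have := natCast_inj' (by omega) (by omega) h3
  omega

theorem lex_vt {V W : Type} {X : Arcs V} {Y : Arcs W} (hX : VertexTransitive X)
    (hY : VertexTransitive Y) : VertexTransitive (lexProd X Y) := by
  rintro ⟨a, b⟩ ⟨a', b'⟩
  obtain ⟨f, hf, hfa⟩ := hX a a'
  obtain ⟨h, hh, hhb⟩ := hY b b'
  refine ⟨Equiv.prodCongr f h, ?_, ?_⟩
  · rintro ⟨x, y⟩ ⟨x', y'⟩
    simp only [lexProd, Equiv.prodCongr_apply, Prod.map_apply]
    rw [hf, hh, f.apply_eq_iff_eq]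
  · simp [hfa, hhb]

theorem iso_vt {V W : Type} {X : Arcs V} {Y : Arcs W} (e : V ≃ W)
    (h : ∀ x y, X x y ↔ Y (e x) (e y)) (hY : VertexTransitive Y) : VertexTransitive X := by
  intro u v
  obtain ⟨f, hf, hfu⟩ := hY (e u) (e v)
  refine ⟨(e.trans f).trans e.symm, ?_, ?_⟩
  · intro x y
    rw [h, h]
    simp only [Equiv.trans_apply, Equiv.apply_symm_apply]
    exact hf _ _
  · simp [hfu]

theorem iso_outdeg {V W : Type} {X : Arcs V} {Y : Arcs W} (e : V ≃ W)
    (h : ∀ x y, X x y ↔ Y (e x) (e y)) (v : V) : outdeg X v = outdeg Y (e v) := by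
  unfold outdeg
  rw [← Set.ncard_image_of_injective {w | X v w} e.injective]
  congr 1
  ext w
  simp only [Set.mem_image, Set.mem_ofPred_eq]
  constructor
  · rintro ⟨x, hx, rfl⟩
    exact (h _ _).1 hx
  · intro hw
    refine ⟨e.symm w, ?_, by simp⟩
    rw [h]
    simpa using hw

/-- The parameters of a chain. -/
theorem chain_data {g : ℕ} {l : List ℕ} {e s m : ℕ} (hg : 2 ≤ g) {W : Type} {Y : Arcs W}
    (h : Chain g l e s m W Y) :
    Finite W ∧ Nonempty W ∧ VertexTransitive Y ∧ NC Y (g - 1) ∧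
      ∃ d, 1 ≤ d ∧ (∀ w, outdeg Y w = d) ∧ Nat.card W = d * (g - 1) + (1 + s) * m := by
  induction h with
  | last e s m he hm =>
    have h1 : NeZero (e * (g - 1) + 1 + s) := ⟨by omega⟩
    have h2 : NeZero m := ⟨by omega⟩
    have hlt : e < e * (g - 1) + 1 + s := by
      have : e * 1 ≤ e * (g - 1) := Nat.mul_le_mul_left _ (by omega)
      omega
    refine ⟨inferInstance, inferInstance, lex_vt (circ_vt _ _) (circ_vt _ _),
      NC_lex (NC_circ (by omega)) (NC_circ (by omega)), e * m, Nat.mul_pos he hm, ?_, ?_⟩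
    · rintro ⟨x, w⟩
      rw [lex_outdeg x w (circ_loop hlt x), circ_outdeg hlt, circ_outdeg (by omega),
        Nat.card_zmod, add_zero]
    · rw [Nat.card_prod, Nat.card_zmod, Nat.card_zmod]
      ring
  | step a l e s m ha W Y hY ih =>
    obtain ⟨h3, h4, h5, h6, d, hd, hd2, hd3⟩ := ih
    have h1 : NeZero (a * (g - 1) + 1) := ⟨by omega⟩
    have hlt : a < a * (g - 1) + 1 := by
      have : a * 1 ≤ a * (g - 1) := Nat.mul_le_mul_left _ (by omega)
      omega
    refine ⟨inferInstance, inferInstance, lex_vt (circ_vt _ _) h5,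
      NC_lex (NC_circ (by omega)) h6, a * Nat.card W + d, by omega, ?_, ?_⟩
    · rintro ⟨x, w⟩
      rw [lex_outdeg x w (circ_loop hlt x), circ_outdeg hlt, hd2]
    · rw [Nat.card_prod, Nat.card_zmod]
      calc (a * (g - 1) + 1) * Nat.card W = a * (g - 1) * Nat.card W + Nat.card W := by ring
        _ = a * (g - 1) * Nat.card W + (d * (g - 1) + (1 + s) * m) := by rw [← hd3]
        _ = (a * Nat.card W + d) * (g - 1) + (1 + s) * m := by ring

theorem no_arc {W : Type} [Finite W] {Y : Arcs W} {w : W} (h : outdeg Y w = 0) (x : W) :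
    ¬ Y w x := by
  intro hx
  unfold outdeg at h
  rw [Set.ncard_eq_zero (Set.toFinite _)] at h
  have : x ∈ {b | Y w b} := hx
  rw [h] at this
  exact this

theorem circ_bound {n d m : ℕ} (hn : d < n) (hm : 2 ≤ m) (h : NC (circ n d) m) :
    d * m + 1 ≤ n := by
  have h1 : NeZero n := ⟨by omega⟩
  have hR : Reg (circ n d) d := by
    intro v
    have h3 := circ_outdeg hn v
    unfold outdeg at h3
    rw [← Set.ncard_coe_finset]
    convert h3 using 2
    ext w
    simp
  have h2 := thmH (A := circ n d) (circ_vt n d) hR hm h 0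
  rwa [ZMod.card] at h2

/-- An iterated lexicographic product without short cycles and with few vertices is a chain. -/
theorem chain_of_iterLex {m : ℕ} (hm : 3 ≤ m) {W : Type} {Y : Arcs W} (h : IterLex W Y) :
    (Finite W ∧ Nonempty W) ∧ ∀ d, (∀ w, outdeg Y w = d) → NC Y m →
      d * m + 1 ≤ Nat.card W ∧ (1 ≤ d → Nat.card W + 1 < (d + 1) * m →
        ∃ l e s k, Nat.card W = d * m + (1 + s) * k ∧ IsoChain (m + 1) l e s k Y) := by
  induction h with
  | base n d0 hn =>
    have h1 : NeZero n := ⟨by omega⟩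
    refine ⟨⟨inferInstance, inferInstance⟩, ?_⟩
    intro d hd hNC
    have hdd : d0 = d := by rw [← hd 0, circ_outdeg hn]
    subst hdd
    have h2 := circ_bound hn (by omega) hNC
    rw [Nat.card_zmod]
    refine ⟨h2, fun h3 h4 => ?_⟩
    obtain ⟨s, rfl⟩ : ∃ s, n = d0 * m + 1 + s := ⟨n - (d0 * m + 1), by omega⟩
    have h5 : Chain (m + 1) [] d0 s 1 (ZMod (d0 * m + 1 + s) × ZMod 1)
        (lexProd (circ (d0 * m + 1 + s) d0) (circ 1 0)) := Chain.last d0 s 1 h3 le_rfl
    refine ⟨[], d0, s, 1, by omega, _, _, h5, ⟨fun x => (x, 0), fun p => p.1, fun x => rfl, ?_⟩, ?_⟩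
    · rintro ⟨x, y⟩
      exact Prod.ext rfl (Subsingleton.elim (α := Fin 1) _ _)
    · intro x y
      constructor
      · intro hxy
        exact Or.inl hxy
      · rintro (hxy | ⟨-, k, h6, h7, -⟩)
        · exact hxy
        · omega
  | step n0 d0 hn W Y hY ih =>
    obtain ⟨⟨hf, hne⟩, ih⟩ := ih
    have h1 : NeZero n0 := ⟨by omega⟩
    refine ⟨⟨inferInstance, inferInstance⟩, ?_⟩
    intro d hd hNC
    obtain ⟨w0⟩ := hne
    have hNX : NC (circ n0 d0) m := NC_left w0 hNC
    have hNY : NC Y m := NC_right (0 : ZMod n0) hNC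
    have h2 := circ_bound hn (by omega) hNX
    obtain ⟨r, rfl⟩ : ∃ r, n0 = d0 * m + 1 + r := ⟨n0 - (d0 * m + 1), by omega⟩
    set M := Nat.card W with hM
    have hd' : ∀ w, outdeg Y w = d - d0 * M := by
      intro w
      have h3 := hd (0, w)
      rw [lex_outdeg _ _ (circ_loop hn _), circ_outdeg hn, ← hM] at h3
      omega
    obtain ⟨e, he⟩ : ∃ e, e = d - d0 * M := ⟨_, rfl⟩
    have hde : d = d0 * M + e := by
      have h3 := hd (0, w0)
      rw [lex_outdeg _ _ (circ_loop hn _), circ_outdeg hn, ← hM] at h3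
      omega
    rw [← he] at hd'
    obtain ⟨hb, hc⟩ := ih e hd' hNY
    have hcard : Nat.card (ZMod (d0 * m + 1 + r) × W) = d0 * m * M + M + r * M := by
      rw [Nat.card_prod, Nat.card_zmod]; ring
    have hdm : d * m = d0 * m * M + e * m := by rw [hde]; ring
    rw [hcard]
    refine ⟨by omega, fun h3 h4 => ?_⟩
    have h5 : (d + 1) * m = d0 * m * M + e * m + m := by rw [add_mul, hdm, one_mul]
    have h6 : M + r * M + 1 < e * m + m := by omega
    have ht : d0 * m * M + M + r * M + e * m = d * m + (1 + r) * M := by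
      rw [hdm]; ring
    rcases Nat.eq_zero_or_pos e with he0 | he1
    · -- `Y` has no arc
      have hYe : ∀ x y, ¬ Y x y := fun x y => no_arc (by rw [hd' x, he0]) y
      have hM1 : 1 ≤ M := by omega
      have hd01 : 1 ≤ d0 := by
        by_contra h
        have : d0 = 0 := by omega
        rw [this, zero_mul, he0] at hde
        omega
      have h7 : Chain (m + 1) [] d0 r M (ZMod (d0 * m + 1 + r) × ZMod M)
          (lexProd (circ (d0 * m + 1 + r) d0) (circ M 0)) := Chain.last d0 r M hd01 hM1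
      rw [he0, zero_mul, Nat.add_zero] at ht
      have : NeZero M := ⟨by omega⟩
      have hfW := Fintype.ofFinite W
      have eW : W ≃ ZMod M := Fintype.equivOfCardEq (by
        rw [ZMod.card, hM, Nat.card_eq_fintype_card])
      refine ⟨[], d0, r, M, ht, _, _, h7, Equiv.prodCongr (Equiv.refl _) eW, ?_⟩
      intro x y
      refine lexProd_congr (Equiv.refl _) (fun _ _ => Iff.rfl) eW ?_ x y
      intro a b
      constructor
      · intro hab; exact absurd hab (hYe _ _)
      · rintro ⟨k, h8, h9, -⟩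
        omega
    · have h8 : r = 0 := by
        by_contra hr
        have h9 : 1 * M ≤ r * M := Nat.mul_le_mul_right _ (by omega)
        have h10 : 1 * m ≤ e * m := Nat.mul_le_mul_right _ he1
        omega
      subst h8
      have h9 : M + 1 < (e + 1) * m := by
        have : (e + 1) * m = e * m + m := by ring
        omega
      obtain ⟨l, e', s, k, hk, h10⟩ := hc he1 h9
      have hk2 : d0 * m * M + M + 0 * M = d * m + (1 + s) * k := by omega
      rcases Nat.eq_zero_or_pos d0 with hd0 | hd1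
      · subst hd0
        refine ⟨l, e', s, k, hk2, IsoChain.iso ⟨fun p => p.2, fun w => (0, w), ?_, fun w => rfl⟩
          ?_ h10⟩
        · rintro ⟨x, w⟩
          refine Prod.ext ?_ rfl
          have h11 : 0 * m + 1 + 0 = 1 := by omega
          have : Subsingleton (ZMod (0 * m + 1 + 0)) := by
            rw [h11]
            exact inferInstanceAs (Subsingleton (Fin 1))
          exact Subsingleton.elim _ _
        · rintro ⟨x, w⟩ ⟨x', w'⟩
          constructor
          · rintro (⟨k, h11, h12, -⟩ | ⟨-, h11⟩)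
            · omega
            · exact h11
          · intro h12
            have h11 : 0 * m + 1 + 0 = 1 := by omega
            have : Subsingleton (ZMod (0 * m + 1 + 0)) := by
              rw [h11]
              exact inferInstanceAs (Subsingleton (Fin 1))
            exact Or.inr ⟨Subsingleton.elim _ _, h12⟩
      · obtain ⟨U, Z, hZ, f, hf⟩ := h10
        have h11 : Chain (m + 1) (d0 :: l) e' s k (ZMod (d0 * m + 1) × U)
            (lexProd (circ (d0 * m + 1) d0) Z) :=
          Chain.step (g := m + 1) d0 l e' s k hd1 U Z hZ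
        refine ⟨d0 :: l, e', s, k, hk2, _, _, h11, Equiv.prodCongr (Equiv.refl _) f, ?_⟩
        intro x y
        exact lexProd_congr (Equiv.refl _) (fun _ _ => Iff.rfl) f hf x y

/-- No directed cycle shorter than `g` implies no short closed walk. -/
theorem NC_of_cycles {V : Type} {A : V → V → Prop} {g : ℕ} (h : ∀ l, HasCycle A l → g ≤ l) :
    NC A (g - 1) := by
  classical
  by_contra hcon
  have hex : ∃ k, 1 ≤ k ∧ k ≤ g - 1 ∧ ∃ v, Wk A k v v := by
    unfold NC at hcon
    push Not at hcon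
    exact hcon
  have hspec := Nat.find_spec hex
  have hmin : ∀ k, k < Nat.find hex → ¬ (1 ≤ k ∧ k ≤ g - 1 ∧ ∃ v, Wk A k v v) :=
    fun k hk => Nat.find_min hex hk
  set k := Nat.find hex with hk
  obtain ⟨hk1, hkg, v, hv⟩ := hspec
  obtain ⟨c, hc0, hck, hc⟩ := Wk_seq hv
  have hinj : ∀ i j, i < j → j < k → c i ≠ c j := by
    intro i j hij hjk he
    have h1 := Wk_of_seq c k hc i j (by omega) (by omega)
    rw [← he] at h1
    exact hmin (j - i) (by omega) ⟨by omega, by omega, c i, h1⟩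
  have hcyc : HasCycle A k := by
    refine ⟨by omega, fun i => c i.val, ?_, ?_⟩
    · have : NeZero k := ⟨by omega⟩
      intro i j hij
      apply ZMod.val_injective k
      have hi := ZMod.val_lt i
      have hj := ZMod.val_lt j
      rcases lt_trichotomy i.val j.val with h1 | h1 | h1
      · exact absurd hij (hinj _ _ h1 hj)
      · exact h1
      · exact absurd hij.symm (hinj _ _ h1 hi)
    · intro i
      have : NeZero k := ⟨by omega⟩
      have hi := ZMod.val_lt i
      have h2 : (i + 1).val = (i.val + 1) % k := by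
        rcases Nat.eq_or_lt_of_le hk1 with h1 | h1
        · have h3 : (i + 1).val < k := ZMod.val_lt _
          have h4 : (i.val + 1) % k < k := Nat.mod_lt _ (by omega)
          omega
        · have : Fact (1 < k) := ⟨h1⟩
          rw [ZMod.val_add, ZMod.val_one]
      show A (c i.val) (c (i + 1).val)
      rw [h2]
      by_cases h3 : i.val + 1 < k
      · rw [Nat.mod_eq_of_lt h3]
        exact hc _ hi
      · have h4 : i.val + 1 = k := by omega
        rw [h4, Nat.mod_self, hc0, ← hck]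
        have := hc _ hi
        rw [h4] at this
        exact this
  have h1 := h _ hcyc
  omega

theorem cycles_of_NC {V : Type} {A : V → V → Prop} {g : ℕ} (h : NC A (g - 1)) (l : ℕ)
    (hl : HasCycle A l) : g ≤ l := by
  obtain ⟨h1, c, -, hc⟩ := hl
  by_contra hcon
  have h2 := Wk_of_seq (A := A) (fun i => c (i : ZMod l)) l (by
    intro i _
    have := hc (i : ZMod l)
    push_cast
    exact this) 0 l (Nat.zero_le _) le_rfl
  simp only [Nat.sub_zero, Nat.cast_zero, ZMod.natCast_self] at h2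
  exact h l h1 (by omega) _ h2

/-- The vertex-transitive digraphs with fewer than `(d+1)(g-1)-1` vertices. -/
theorem below {V : Type} [Fintype V] [Nonempty V] (X : Arcs V) {g : ℕ} (hg : 4 ≤ g) :
    (VertexTransitive X ∧ (∀ l, HasCycle X l → g ≤ l) ∧
      ∃ d, 1 ≤ d ∧ (∀ v, outdeg X v = d) ∧ Fintype.card V < (d + 1) * (g - 1) - 1) ↔
    ∃ l e s m, (1 + s) * m ≤ g - 3 ∧ IsoChain g l e s m X := by
  obtain ⟨m, rfl⟩ : ∃ m, g = m + 1 := ⟨g - 1, by omega⟩
  simp only [Nat.add_sub_cancel]
  constructor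
  · rintro ⟨hVT, hcyc, d, hd1, hd, hlt⟩
    have hNC : NC X m := NC_of_cycles hcyc
    have hR : Reg X d := by
      intro v
      rw [← hd v, outdeg, ← Set.ncard_coe_finset]
      congr 1
      ext w
      simp
    have hL : InL X := by
      by_contra hL
      have := main_thm (A := X) hVT hR (by omega) hNC hL
      omega
    obtain ⟨W, Y, hY, e, he⟩ := hL
    obtain ⟨-, h1⟩ := chain_of_iterLex (m := m) (by omega) hY
    obtain ⟨h2, h3⟩ := h1 d (fun w => by
      rw [← hd (e.symm w), iso_outdeg e he, Equiv.apply_symm_apply])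
      (NC_hom e.symm (fun x y hxy => by rw [he]; simpa using hxy) hNC)
    have hcard : Nat.card W = Fintype.card V := by
      rw [← Nat.card_eq_fintype_card]
      exact (Nat.card_congr e).symm
    rw [hcard] at h2 h3
    obtain ⟨l, e', s, k, hk, h4⟩ := h3 hd1 (by omega)
    refine ⟨l, e', s, k, ?_, IsoChain.iso e he h4⟩
    have : (d + 1) * m = d * m + m := by ring
    omega
  · rintro ⟨l, e', s, k, ht, U, Z, hZ, e, he⟩
    obtain ⟨h1, h2, h3, h4, d, h5, h6, h7⟩ := chain_data (by omega) hZ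
    simp only [Nat.add_sub_cancel] at h4 h7
    have hcard : Fintype.card V = Nat.card U := by
      rw [← Nat.card_eq_fintype_card]
      exact Nat.card_congr e
    refine ⟨iso_vt e he h3, cycles_of_NC (NC_hom e (fun x y hxy => (he x y).1 hxy) h4), d, h5,
      fun v => by rw [iso_outdeg e he, h6], ?_⟩
    rw [hcard, h7]
    have : (d + 1) * m = d * m + m := by ring
    omega

/-- The number of vertices of a chain. -/
theorem chain_order {V : Type} [Fintype V] (X : Arcs V) {g d : ℕ} (hg : 2 ≤ g) {l : List ℕ}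
    {e s m : ℕ} (h : IsoChain g l e s m X) (hd : ∀ v, outdeg X v = d) :
    Fintype.card V = d * (g - 1) + (1 + s) * m := by
  obtain ⟨U, Z, hZ, f, hf⟩ := h
  obtain ⟨h1, ⟨u⟩, h3, h4, d', h5, h6, h7⟩ := chain_data hg hZ
  have h8 : d' = d := by rw [← hd (f.symm u), iso_outdeg f hf, h6]
  rw [← Nat.card_eq_fintype_card, Nat.card_congr f, h7, h8]

end Pool.Agent.H52.VTD
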