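import Pool.Agent.H52.VTD.Unique

/-!
The girth of a chain, and chains as Cayley digraphs of abelian groups.
-/

namespace Pool.Agent.H52.VTD

open Pool.Agent.Results.MP_81f9fb_co.GirthBound

theorem circ_cycle {N e g r : ℕ} (hg : 2 ≤ g) (hr : 1 ≤ r) (hr2 : r ≤ e)
    (hN : N = e * (g - 1) + r) : HasCycle (circ N e) g := by
  obtain ⟨m, rfl⟩ : ∃ m, g = m + 1 := ⟨g - 1, by omega⟩
  simp only [Nat.add_sub_cancel] at hN
  have : NeZero (m + 1) := ⟨by omega⟩
  have hval : ∀ i : ZMod (m + 1), i.val < m + 1 := fun i => ZMod.val_lt i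
  have hp : ∀ i : ℕ, i ≤ m → e * i ≤ e * m := fun i hi => Nat.mul_le_mul_left _ hi
  refine ⟨by omega, fun i => ((e * i.val : ℕ) : ZMod N), ?_, ?_⟩
  · intro i j hij
    have h2 := hp _ (Nat.lt_succ_iff.1 (hval i))
    have h3 := hp _ (Nat.lt_succ_iff.1 (hval j))
    have h1 := natCast_inj' (n := N) (by omega) (by omega) hij
    exact ZMod.val_injective _ (Nat.eq_of_mul_eq_mul_left (by omega) h1)
  · intro i
    have hi := hval i
    have h2 : (i + 1).val = (i.val + 1) % (m + 1) := by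
      have : Fact (1 < m + 1) := ⟨by omega⟩
      rw [ZMod.val_add, ZMod.val_one]
    simp only [circ]
    rw [h2]
    rcases Nat.lt_or_ge i.val m with h3 | h3
    · rw [Nat.mod_eq_of_lt (by omega)]
      refine ⟨e, by omega, le_rfl, ?_⟩
      push_cast; ring
    · have h5 : i.val = m := by omega
      rw [h5, Nat.mod_self]
      refine ⟨r, hr, hr2, ?_⟩
      rw [← Nat.cast_add, ← hN, ZMod.natCast_self]
      simp

theorem hasCycle_hom {V W : Type} {X : Arcs V} {Y : Arcs W} (f : V → W)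
    (hf : Function.Injective f) (h : ∀ x y, X x y → Y (f x) (f y)) {l : ℕ} (hX : HasCycle X l) :
    HasCycle Y l := by
  obtain ⟨h1, c, h2, h3⟩ := hX
  exact ⟨h1, fun i => f (c i), hf.comp h2, fun i => h _ _ (h3 i)⟩

theorem chain_girth {g : ℕ} {l : List ℕ} {e s m : ℕ} (hg : 2 ≤ g) {W : Type} {Y : Arcs W}
    (h : Chain g l e s m W Y) : IsGirth Y g ↔ (l ≠ [] ∨ 1 + s ≤ e) := by
  have hcyc : IsGirth Y g ↔ HasCycle Y g := by
    constructor
    · intro h1; exact h1.1
    · intro h1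
      obtain ⟨-, -, -, h2, -⟩ := chain_data hg h
      exact ⟨h1, fun k hk => cycles_of_NC h2 k hk⟩
  rw [hcyc]
  clear hcyc
  cases h with
  | last _ _ _ he hm =>
    constructor
    · intro h1
      right
      by_contra h2
      have h3 : NC (lexProd (circ (e * (g - 1) + 1 + s) e) (circ m 0)) (g + 1 - 1) := by
        refine NC_lex (NC_circ ?_) (NC_circ (by omega))
        have : e * (g + 1 - 1) = e * (g - 1) + e := by
          obtain ⟨k, rfl⟩ : ∃ k, g = k + 1 := ⟨g - 1, by omega⟩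
          simp only [Nat.add_sub_cancel]
          ring
        omega
      have := cycles_of_NC h3 g h1
      omega
    · rintro (h1 | h1)
      · exact absurd rfl h1
      · have h2 : HasCycle (circ (e * (g - 1) + 1 + s) e) g :=
          circ_cycle hg (by omega) h1 (by omega)
        exact hasCycle_hom (fun x => (x, (0 : ZMod m))) (fun x y hxy => congrArg Prod.fst hxy)
          (fun _ _ hxy => Or.inl hxy) h2
  | step a l _ _ _ ha W Y hY =>
    constructor
    · intro _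
      left
      simp
    · intro _
      obtain ⟨-, ⟨w⟩, -⟩ := chain_data hg hY
      have h2 : HasCycle (circ (a * (g - 1) + 1) a) g := circ_cycle hg le_rfl ha rfl
      exact hasCycle_hom (fun x => (x, w)) (fun x y hxy => congrArg Prod.fst hxy)
        (fun _ _ hxy => Or.inl hxy) h2

theorem isGirth_iso {V W : Type} {X : Arcs V} {Y : Arcs W} (f : V ≃ W)
    (h : ∀ x y, X x y ↔ Y (f x) (f y)) {g : ℕ} (hY : IsGirth Y g) : IsGirth X g := by
  refine ⟨hasCycle_hom f.symm f.symm.injective (fun x y hxy => by rw [h]; simpa using hxy) hY.1, ?_⟩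
  intro k hk
  exact hY.2 (hasCycle_hom f f.injective (fun x y hxy => (h x y).1 hxy) hk)

/-- `X` is isomorphic to a Cayley digraph of an abelian group. -/
def AbelianCayley {V : Type} (X : Arcs V) : Prop :=
  ∃ (G : Type) (_ : AddCommGroup G) (S : Set G) (f : V ≃ G), ∀ x y, X x y ↔ f y - f x ∈ S

theorem chain_cayley {g : ℕ} {l : List ℕ} {e s m : ℕ} {W : Type} {Y : Arcs W}
    (h : Chain g l e s m W Y) :
    ∃ (G : Type) (_ : AddCommGroup G) (S : Set G) (f : W ≃ G), ∀ x y, Y x y ↔ f y - f x ∈ S := by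
  induction h with
  | last e s m he hm =>
    refine ⟨_, inferInstance, {p | ∃ k : ℕ, 1 ≤ k ∧ k ≤ e ∧ p.1 = (k : ZMod _)}, Equiv.refl _, ?_⟩
    rintro ⟨x, w⟩ ⟨y, z⟩
    simp only [Equiv.refl_apply, Set.mem_ofPred_eq, Prod.fst_sub, lexProd, circ]
    constructor
    · rintro (⟨k, h1, h2, h3⟩ | ⟨-, k, h1, h2, -⟩)
      · exact ⟨k, h1, h2, by rw [h3]; ring⟩
      · omega
    · rintro ⟨k, h1, h2, h3⟩
      exact Or.inl ⟨k, h1, h2, by rw [← h3]; ring⟩
  | step a l e s m ha W Y hY ih =>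
    obtain ⟨G, _, S, f, hf⟩ := ih
    refine ⟨ZMod (a * (g - 1) + 1) × G, inferInstance,
      {p | (∃ k : ℕ, 1 ≤ k ∧ k ≤ a ∧ p.1 = (k : ZMod _)) ∨ (p.1 = 0 ∧ p.2 ∈ S)},
      Equiv.prodCongr (Equiv.refl _) f, ?_⟩
    rintro ⟨x, w⟩ ⟨y, z⟩
    simp only [Equiv.prodCongr_apply, Prod.map_apply, Equiv.refl_apply, Set.mem_ofPred_eq,
      Prod.fst_sub, Prod.snd_sub, lexProd, circ]
    rw [hf, sub_eq_zero, @eq_comm _ y x]
    constructor
    · rintro (⟨k, h1, h2, h3⟩ | h1)
      · exact Or.inl ⟨k, h1, h2, by rw [h3]; ring⟩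
      · exact Or.inr h1
    · rintro (⟨k, h1, h2, h3⟩ | h1)
      · exact Or.inl ⟨k, h1, h2, by rw [← h3]; ring⟩
      · exact Or.inr h1

theorem isoChain_cayley {g : ℕ} {l : List ℕ} {e s m : ℕ} {V : Type} {X : Arcs V}
    (h : IsoChain g l e s m X) : AbelianCayley X := by
  obtain ⟨W, Y, hY, f, hf⟩ := h
  obtain ⟨G, hG, S, f', hf'⟩ := chain_cayley hY
  exact ⟨G, hG, S, f.trans f', fun x y => by rw [hf, hf']; rfl⟩

/-- The vertex-transitive digraphs of girth `g` with fewer than `(d+1)(g-1)-1` vertices. -/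
theorem below_girth {V : Type} [Fintype V] (X : Arcs V) {g : ℕ} (hg : 4 ≤ g) :
    (VertexTransitive X ∧ IsGirth X g ∧
      ∃ d, (∀ v, outdeg X v = d) ∧ Fintype.card V < (d + 1) * (g - 1) - 1) ↔
    ∃ l e s m, (1 + s) * m ≤ g - 3 ∧ (l ≠ [] ∨ 1 + s ≤ e) ∧ IsoChain g l e s m X := by
  constructor
  · rintro ⟨h1, h2, d, h3, h4⟩
    obtain ⟨hpos, c, -, hc⟩ := h2.1
    have hne : Nonempty V := ⟨c 0⟩
    have hd : 1 ≤ d := by
      by_contra h
      exact no_arc (by rw [h3]; omega) _ (hc 0)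
    obtain ⟨l, e, s, m, h5, h6⟩ := (below X hg).1 ⟨h1, fun k hk => h2.2 hk, d, hd, h3, h4⟩
    refine ⟨l, e, s, m, h5, ?_, h6⟩
    obtain ⟨W, Y, hY, hi⟩ := h6
    obtain ⟨f, hf⟩ := iso_symm hi
    exact (chain_girth (by omega) hY).1 (isGirth_iso f hf h2)
  · rintro ⟨l, e, s, m, h1, h2, h3⟩
    have h3' := h3
    obtain ⟨W, Y, hY, f, hf⟩ := h3'
    obtain ⟨-, ⟨w⟩, -⟩ := chain_data (by omega) hY
    have hne : Nonempty V := ⟨f.symm w⟩
    obtain ⟨h4, -, d, -, h6, h7⟩ := (below X hg).2 ⟨l, e, s, m, h1, h3⟩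
    exact ⟨h4, isGirth_iso f hf ((chain_girth (by omega) hY).2 h2), d, h6, h7⟩

/-- The bound, for every girth. -/
theorem bound_all {V : Type} [Fintype V] (X : Arcs V) {d g : ℕ} (hX : VertexTransitive X)
    (hd : ∀ v, outdeg X v = d) (hg : IsGirth X g) (hL : ¬ InL X) :
    (d + 1) * (g - 1) - 1 ≤ Fintype.card V := by
  by_cases h3 : 3 < g
  · exact result V X d g hX hd hg h3 hL
  have hNC := NC_of_girth hg
  obtain ⟨hpos, c, -, -⟩ := hg.1
  have hR : Reg X d := by
    intro v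
    rw [← hd v, outdeg, ← Set.ncard_coe_finset]
    congr 1
    ext w
    simp
  rcases Nat.lt_or_ge g 3 with h4 | h4
  · have h5 : d ≤ Fintype.card V := by
      rw [← hR (c 0)]
      exact Finset.card_le_univ _
    have h6 : (d + 1) * (g - 1) ≤ (d + 1) * 1 := Nat.mul_le_mul_left _ (by omega)
    omega
  · have h5 : g = 3 := by omega
    subst h5
    have h6 := thmH (A := X) hX hR le_rfl hNC (c 0)
    omega

end Pool.Agent.H52.VTD
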