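import Pool.Graph.R_seed8.Results.MP_81f9fb_co.GirthBound

/-!
Vertex-transitive digraphs of out-degree one are in the class `L`.
-/

namespace Pool.Agent.H52.VTD

open Pool.Agent.Results.MP_81f9fb_co.GirthBound

theorem Wk_iter {V : Type} {X : Arcs V} (σ : V → V) (h : ∀ v, X v (σ v)) (k : ℕ) (v : V) :
    Wk X k v (σ^[k] v) := by
  induction k with
  | zero => rfl
  | succ k ih =>
    refine ⟨_, ih, ?_⟩
    rw [Function.iterate_succ_apply']
    exact h _

theorem inL_one {V : Type} [Fintype V] {X : Arcs V} {g : ℕ} (hX : VertexTransitive X)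
    (hd : ∀ v, outdeg X v = 1) (hg : IsGirth X g) (hg2 : 2 ≤ g) : InL X := by
  have hNC := NC_of_girth hg
  obtain ⟨hpos, c, -, hc⟩ := hg.1
  have hne : Nonempty V := ⟨c 0⟩
  have i1 : NeZero g := ⟨by omega⟩
  have hR : Reg X 1 := by
    intro v
    rw [← hd v, outdeg, ← Set.ncard_coe_finset]
    congr 1
    ext w
    simp
  have hR' : Reg (fl X) 1 := Reg_fl hX hR
  have hex : ∀ v, ∃ w, ∀ x, X v x ↔ x = w := by
    intro v
    obtain ⟨w, hw⟩ := Finset.card_eq_one.1 (hR v)
    refine ⟨w, fun x => ?_⟩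
    rw [← mem_Nb X v x, hw, Finset.mem_singleton]
  choose σ hσ using hex
  have hinj : Function.Injective σ := by
    intro a b hab
    obtain ⟨w, hw⟩ := Finset.card_eq_one.1 (hR' (σ a))
    have h1 : a ∈ Nb (fl X) (σ a) := by rw [mem_Nb]; exact (hσ a _).2 rfl
    have h2 : b ∈ Nb (fl X) (σ a) := by rw [mem_Nb]; exact (hσ b _).2 hab
    rw [hw, Finset.mem_singleton] at h1 h2
    rw [h1, h2]
  let τ : Equiv.Perm V := Equiv.ofBijective σ (Finite.injective_iff_bijective.1 hinj)
  have hτ : ∀ v, τ v = σ v := fun v => rfl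
  have hpow : ∀ (k : ℕ) v, (τ ^ k) v = σ^[k] v := by
    intro k v
    induction k with
    | zero => rfl
    | succ k ih =>
      rw [pow_succ', Equiv.Perm.mul_apply, ih, Function.iterate_succ_apply', hτ]
  -- the period is `g`
  have hc' : ∀ k : ℕ, σ^[k] (c 0) = c (k : ZMod g) := by
    intro k
    induction k with
    | zero => simp
    | succ k ih =>
      rw [Function.iterate_succ_apply', ih]
      push_cast
      exact ((hσ _ _).1 (hc _)).symm
  have hper : ∀ v, (τ ^ g) v = v := by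
    intro v
    obtain ⟨φ, hφ, hv⟩ := hX (c 0) v
    have hcomm : ∀ x, φ (σ x) = σ (φ x) := by
      intro x
      rw [← hσ, hφ, hσ]
    have hcomm2 : ∀ (k : ℕ) x, φ (σ^[k] x) = σ^[k] (φ x) := by
      intro k x
      induction k with
      | zero => rfl
      | succ k ih => rw [Function.iterate_succ_apply', hcomm, ih, Function.iterate_succ_apply']
    rw [hpow, ← hv, ← hcomm2, hc']
    simp
  have hmin : ∀ (k : ℕ) v, 1 ≤ k → k < g → (τ ^ k) v ≠ v := by
    intro k v h1 h2 h3
    apply hNC k h1 (by omega) v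
    have := Wk_iter (X := X) σ (fun v => (hσ v _).2 rfl) k v
    rwa [← hpow, h3] at this
  have hlt : ∀ (i j : ℕ) v, i < j → j < g → (τ ^ i) v ≠ (τ ^ j) v := by
    intro i j v h1 h2 h3
    have h4 : (τ ^ (j - i)) v = v := by
      apply (τ ^ i).injective
      rw [← Equiv.Perm.mul_apply, ← pow_add, show i + (j - i) = j by omega, h3]
    exact hmin _ _ (by omega) (by omega) h4
  let s : Setoid V := Equiv.Perm.SameCycle.setoid τ
  have hs : ∀ x y, s.r x y ↔ ∃ k : ℤ, (τ ^ k) x = y := fun x y => Iff.rfl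
  let F : Quotient s × ZMod g → V := fun p => (τ ^ p.2.val) p.1.out
  have hFq : ∀ p, (Quotient.mk s (F p)) = p.1 := by
    rintro ⟨q, i⟩
    conv_rhs => rw [← Quotient.out_eq q]
    apply Quotient.sound
    show s.r _ _
    rw [hs]
    refine ⟨-(i.val : ℤ), ?_⟩
    show (τ ^ (-(i.val : ℤ))) ((τ ^ i.val) q.out) = q.out
    rw [zpow_neg, zpow_natCast]
    exact Equiv.symm_apply_apply _ _
  have hbij : Function.Bijective F := by
    constructor
    · rintro ⟨q, i⟩ ⟨q', j⟩ h
      have h1 : q = q' := by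
        have a := hFq (q, i)
        have b := hFq (q', j)
        rw [h] at a
        exact a.symm.trans b
      subst h1
      have h2 : (τ ^ i.val) q.out = (τ ^ j.val) q.out := h
      rcases lt_trichotomy i.val j.val with h3 | h3 | h3
      · exact absurd h2 (hlt _ _ _ h3 (ZMod.val_lt j))
      · rw [ZMod.val_injective g h3]
      · exact absurd h2.symm (hlt _ _ _ h3 (ZMod.val_lt i))
    · intro v
      have h1 : s.r (Quotient.mk s v).out v := Quotient.exact (Quotient.out_eq (Quotient.mk s v))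
      obtain ⟨k, hk⟩ := (hs _ _).1 h1
      refine ⟨(Quotient.mk s v, (k : ZMod g)), ?_⟩
      show (τ ^ (k : ZMod g).val) (Quotient.mk s v).out = v
      have h2 : (((k : ZMod g).val : ℕ) : ℤ) = k % g := ZMod.val_intCast k
      rw [← zpow_natCast, h2]
      conv_rhs => rw [← hk, ← Int.emod_add_mul_ediv k g, zpow_add, Equiv.Perm.mul_apply, zpow_mul]
      congr 1
      have h3 : τ ^ (g : ℤ) = 1 := by
        ext x
        rw [zpow_natCast, hper]
        rfl
      rw [h3, one_zpow]
      rfl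
  have hF1 : ∀ q i, σ (F (q, i)) = F (q, i + 1) := by
    intro q i
    show σ ((τ ^ i.val) q.out) = (τ ^ (i + 1).val) q.out
    rw [← hτ, ← Equiv.Perm.mul_apply, ← pow_succ']
    have h2 : (i + 1).val = (i.val + 1) % g := by
      have : Fact (1 < g) := ⟨by omega⟩
      rw [ZMod.val_add, ZMod.val_one]
    rw [h2]
    have hi := ZMod.val_lt i
    rcases Nat.lt_or_ge (i.val + 1) g with h3 | h3
    · rw [Nat.mod_eq_of_lt h3]
    · have h4 : i.val + 1 = g := by omega
      rw [h4, Nat.mod_self, hper]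
      rfl
  have hfin : Fintype (Quotient s) := Fintype.ofFinite _
  have hneq : Nonempty (Quotient s) := ⟨Quotient.mk s (c 0)⟩
  have hL : InL (lexProd (fun _ _ : Quotient s => False) (circ g 1)) :=
    InL_lex (InL_empty _ (fun _ _ h => h)) (InL_circ g 1 (by omega))
  refine InL_iso (Equiv.ofBijective F hbij).symm ?_ hL
  intro x y
  obtain ⟨⟨q, i⟩, rfl⟩ := hbij.2 x
  obtain ⟨⟨q', j⟩, rfl⟩ := hbij.2 y
  have h1 : ∀ p, (Equiv.ofBijective F hbij).symm (F p) = p :=
    fun p => (Equiv.ofBijective F hbij).symm_apply_apply p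
  rw [h1, h1, hσ, hF1, hbij.1.eq_iff, Prod.mk.injEq]
  constructor
  · rintro ⟨h2, h3⟩
    exact Or.inr ⟨h2.symm, 1, le_rfl, le_rfl, by rw [h3]; simp⟩
  · rintro (h2 | ⟨h2, k, h3, h4, h5⟩)
    · exact absurd h2 (fun h => h)
    · have h6 : k = 1 := by omega
      subst h6
      have h5' : j = i + ((1 : ℕ) : ZMod g) := h5
      exact ⟨h2.symm, by rw [h5']; simp⟩

end Pool.Agent.H52.VTD
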