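import Pool.Agent.H52.VTD.Sharp
import Pool.Agent.H52.VTD.Girth
import Pool.Agent.H52.VTD.One

/-!
Order of a chain, membership in `L`, and when the bound is attained.
-/

namespace Pool.Agent.H52.VTD

open Pool.Agent.Results.MP_81f9fb_co.GirthBound

theorem chain_card {g : ℕ} {l : List ℕ} {e s m : ℕ} {W : Type} {Y : Arcs W}
    (h : Chain g l e s m W Y) :
    Nat.card W = (l.map fun a => a * (g - 1) + 1).prod * ((e * (g - 1) + 1 + s) * m) := by
  induction h with
  | last e s m he hm => simp [Nat.card_prod]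
  | step a l e s m ha W Y hY ih =>
    rw [Nat.card_prod, Nat.card_zmod, ih, List.map_cons, List.prod_cons, mul_assoc]

theorem chain_InL {g : ℕ} {l : List ℕ} {e s m : ℕ} (hg : 2 ≤ g) {W : Type} {Y : Arcs W}
    (h : Chain g l e s m W Y) : InL Y := by
  induction h with
  | last e s m he hm =>
    refine InL_lex (InL_circ _ _ ?_) (InL_circ _ _ (by omega))
    have : e * 1 ≤ e * (g - 1) := Nat.mul_le_mul_left _ (by omega)
    omega
  | step a l e s m ha W Y hY ih =>
    refine InL_lex (InL_circ _ _ ?_) ih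
    have : a * 1 ≤ a * (g - 1) := Nat.mul_le_mul_left _ (by omega)
    omega

theorem isoChain_card {g : ℕ} {l : List ℕ} {e s m : ℕ} {V : Type} [Fintype V] {X : Arcs V}
    (h : IsoChain g l e s m X) :
    Fintype.card V = (l.map fun a => a * (g - 1) + 1).prod * ((e * (g - 1) + 1 + s) * m) := by
  obtain ⟨W, Y, hY, f, -⟩ := h
  rw [← chain_card hY, ← Nat.card_eq_fintype_card]
  exact Nat.card_congr f

theorem isoChain_InL {g : ℕ} {l : List ℕ} {e s m : ℕ} (hg : 2 ≤ g) {V : Type} {X : Arcs V}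
    (h : IsoChain g l e s m X) : InL X := by
  obtain ⟨W, Y, hY, f, hf⟩ := h
  exact InL_iso f hf (chain_InL hg hY)

/-- The bound `(d+1)(g-1)-1` is attained outside `L` exactly when `d ≥ 2`. -/
theorem attained {d g : ℕ} (hg : 4 ≤ g) :
    (∃ (V : Type) (_ : Fintype V) (X : Arcs V), VertexTransitive X ∧ (∀ v, outdeg X v = d) ∧
      IsGirth X g ∧ ¬ InL X ∧ Fintype.card V = (d + 1) * (g - 1) - 1) ↔ 2 ≤ d := by
  constructor
  · rintro ⟨V, _, X, h1, h2, h3, h4, -⟩
    by_contra h
    obtain ⟨hpos, c, -, hc⟩ := h3.1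
    have hd : 1 ≤ d := by
      by_contra h
      exact no_arc (by rw [h2]; omega) _ (hc 0)
    have hd1 : d = 1 := by omega
    subst hd1
    exact h4 (inL_one h1 h2 h3 (by omega))
  · intro hd
    obtain ⟨X, h1, h2, h3, h4⟩ := sharp hd hg
    have h5 : (d + 1) * 3 ≤ (d + 1) * (g - 1) := Nat.mul_le_mul_left _ (by omega)
    have : NeZero ((d + 1) * (g - 1) - 1) := ⟨by omega⟩
    exact ⟨_, inferInstance, X, h1, h2, h3, h4, ZMod.card _⟩

end Pool.Agent.H52.VTD
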