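import Pool.Graph.R_seed8.Results.MP_81f9fb_co.GirthBound

/-!
Vertex-transitive digraphs outside the class `L` which attain the bound `(d+1)(g-1)-1`: the Cayley
digraph of the integers mod `(d+1)(g-1)-1` with connection set `{1, ..., d-1, d+1}`.
-/

namespace Pool.Agent.H52.VTD

open Pool.Agent.Results.MP_81f9fb_co.GirthBound

/-- The Cayley digraph of the integers mod `n` with connection set `{1, ..., d - 1, d + 1}`. -/
def hole (n d : ℕ) : Arcs (ZMod n) :=
  fun x y => ∃ k : ℕ, 1 ≤ k ∧ k ≤ d + 1 ∧ k ≠ d ∧ y = x + (k : ZMod n)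

theorem natCast_inj_of_lt {n a b : ℕ} (ha : a < n) (hb : b < n)
    (h : (a : ZMod n) = (b : ZMod n)) : a = b := by
  have h1 := (ZMod.natCast_eq_natCast_iff' a b n).1 h
  rwa [Nat.mod_eq_of_lt ha, Nat.mod_eq_of_lt hb] at h1

theorem hole_vt (n d : ℕ) : VertexTransitive (hole n d) := by
  intro u v
  refine ⟨Equiv.addRight (v - u), ?_, by simp⟩
  intro x y
  simp only [hole, Equiv.coe_addRight]
  constructor
  · rintro ⟨k, h1, h2, h3, h4⟩
    exact ⟨k, h1, h2, h3, by linear_combination h4⟩
  · rintro ⟨k, h1, h2, h3, h4⟩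
    exact ⟨k, h1, h2, h3, by linear_combination h4⟩

theorem hole_outdeg {n d : ℕ} (hd : 1 ≤ d) (hn : d + 1 < n) (v : ZMod n) :
    outdeg (hole n d) v = d := by
  have h : {w | hole n d v w} =
      (((Finset.Icc 1 (d + 1)).erase d).image (fun k : ℕ => v + (k : ZMod n)) : Set (ZMod n)) := by
    ext w
    simp only [Set.mem_ofPred_eq, hole, Finset.coe_image, Set.mem_image, Finset.mem_coe,
      Finset.mem_erase, Finset.mem_Icc]
    constructor
    · rintro ⟨k, h1, h2, h3, h4⟩
      exact ⟨k, ⟨h3, h1, h2⟩, h4.symm⟩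
    · rintro ⟨k, ⟨h3, h1, h2⟩, h4⟩
      exact ⟨k, h1, h2, h3, h4.symm⟩
  unfold outdeg
  rw [h]
  have h2 : Set.InjOn (fun k : ℕ => v + (k : ZMod n))
      ((Finset.Icc 1 (d + 1)).erase d : Finset ℕ) := by
    intro a ha b hb hab
    simp only [Finset.coe_erase, Finset.coe_Icc, Set.mem_sdiff, Set.mem_Icc,
      Set.mem_singleton_iff] at ha hb
    have h3 : (a : ZMod n) = (b : ZMod n) := by simpa using hab
    exact natCast_inj_of_lt (by omega) (by omega) h3
  rw [Set.ncard_coe_finset, Finset.card_image_of_injOn h2,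
    Finset.card_erase_of_mem (by simp; omega), Nat.card_Icc]
  omega

theorem hole_cycle {d g : ℕ} (hd : 2 ≤ d) (hg : 2 ≤ g) :
    HasCycle (hole ((d + 1) * (g - 1) - 1) d) g := by
  obtain ⟨m, rfl⟩ : ∃ m, g = m + 2 := ⟨g - 2, by omega⟩
  have hn : (d + 1) * (m + 2 - 1) - 1 = (d + 1) * m + d := by
    have : (d + 1) * (m + 2 - 1) = (d + 1) * m + (d + 1) := by
      rw [show m + 2 - 1 = m + 1 by omega]; ring
    omega
  rw [hn]
  set n := (d + 1) * m + d with hndef
  have : NeZero (m + 2) := ⟨by omega⟩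
  have hval : ∀ i : ZMod (m + 2), i.val < m + 2 := fun i => ZMod.val_lt i
  have hp : ∀ i : ℕ, i ≤ m → i * (d + 1) ≤ m * (d + 1) := fun i hi =>
    Nat.mul_le_mul_right _ hi
  have hmn : m * (d + 1) = (d + 1) * m := by ring
  refine ⟨by omega, fun i => (((if i.val ≤ m then i.val * (d + 1) else n - 1 : ℕ)) : ZMod n), ?_, ?_⟩
  · intro i j hij
    have hi := hval i
    have hj := hval j
    have h1 := natCast_inj_of_lt (n := n) (by
      split_ifs with h
      · have := hp _ h; omega
      · omega) (by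
      split_ifs with h
      · have := hp _ h; omega
      · omega) hij
    apply ZMod.val_injective
    split_ifs at h1 with h2 h3 h3
    · exact Nat.eq_of_mul_eq_mul_right (by omega) h1
    · have := hp _ h2; omega
    · have := hp _ h3; omega
    · omega
  · intro i
    have hi := hval i
    have h2 : (i + 1).val = (i.val + 1) % (m + 2) := by
      have : Fact (1 < m + 2) := ⟨by omega⟩
      rw [ZMod.val_add, ZMod.val_one]
    simp only [hole]
    rw [h2]
    rcases Nat.lt_or_ge i.val m with h3 | h3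
    · rw [Nat.mod_eq_of_lt (by omega), if_pos (by omega), if_pos (by omega)]
      refine ⟨d + 1, by omega, le_rfl, by omega, ?_⟩
      push_cast; ring
    · rcases Nat.eq_or_lt_of_le h3 with h4 | h4
      · rw [Nat.mod_eq_of_lt (by omega), if_neg (by omega), if_pos (by omega)]
        refine ⟨d - 1, by omega, by omega, by omega, ?_⟩
        rw [← Nat.cast_add, ← h4]
        congr 1
        omega
      · have h5 : i.val + 1 = m + 2 := by omega
        rw [h5, Nat.mod_self, if_pos (by omega), if_neg (by omega)]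
        refine ⟨1, by omega, by omega, by omega, ?_⟩
        rw [← Nat.cast_add, show n - 1 + 1 = n by omega, ZMod.natCast_self]
        simp

theorem hole_girth_ge {d g l : ℕ} (hd : 2 ≤ d) (hg : 2 ≤ g)
    (h : HasCycle (hole ((d + 1) * (g - 1) - 1) d) l) : g ≤ l := by
  obtain ⟨m, rfl⟩ : ∃ m, g = m + 2 := ⟨g - 2, by omega⟩
  have hn : (d + 1) * (m + 2 - 1) - 1 = (d + 1) * m + d := by
    have : (d + 1) * (m + 2 - 1) = (d + 1) * m + (d + 1) := by
      rw [show m + 2 - 1 = m + 1 by omega]; ring
    omega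
  rw [hn] at h
  set n := (d + 1) * m + d with hndef
  obtain ⟨hl, c, -, hc⟩ := h
  have : NeZero l := ⟨by omega⟩
  choose k hk1 hk2 hk3 hk4 using hc
  have hsum : ((∑ i, k i : ℕ) : ZMod n) = 0 := by
    have h1 : ∑ i, ((k i : ℕ) : ZMod n) = ∑ i, (c (i + 1) - c i) := by
      apply Finset.sum_congr rfl
      intro i _
      rw [hk4 i]; ring
    have h2 : ∑ i, c (i + 1) = ∑ i, c i := Equiv.sum_comp (Equiv.addRight (1 : ZMod l)) c
    push_cast
    rw [h1, Finset.sum_sub_distrib, h2, sub_self]
  have hdvd : n ∣ ∑ i, k i := (ZMod.natCast_eq_zero_iff _ _).1 hsum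
  have hpos : 0 < ∑ i, k i := by
    have : (Finset.univ : Finset (ZMod l)).Nonempty := Finset.univ_nonempty
    exact Finset.sum_pos (fun i _ => hk1 i) this
  by_contra hcon
  have hle : ∑ i, k i ≤ l * (d + 1) := by
    have h1 : ∑ i, k i ≤ ∑ i : ZMod l, (d + 1) := Finset.sum_le_sum (fun i _ => hk2 i)
    simpa [ZMod.card] using h1
  have hl2 : l * (d + 1) ≤ (m + 1) * (d + 1) := Nat.mul_le_mul_right _ (by omega)
  have hnm : (m + 1) * (d + 1) = n + 1 := by rw [hndef]; ring
  obtain ⟨q, hq⟩ := hdvd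
  have hq1 : q = 1 := by
    have h1 : q ≠ 0 := by rintro rfl; omega
    have h2 : q < 2 := by
      by_contra h3
      have h4 : n * 2 ≤ n * q := Nat.mul_le_mul_left _ (by omega)
      omega
    omega
  subst hq1
  have hlm : l = m + 1 := by
    by_contra hne
    have h1 : l * (d + 1) ≤ m * (d + 1) := Nat.mul_le_mul_right _ (by omega)
    have h2 : m * (d + 1) = (d + 1) * m := by ring
    omega
  -- the deficits sum to one
  have hdef : ∑ i, (d + 1 - k i) = 1 := by
    have h1 : ∑ i, (d + 1 - k i) + ∑ i, k i = ∑ i : ZMod l, (d + 1) := by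
      rw [← Finset.sum_add_distrib]
      apply Finset.sum_congr rfl
      intro i _
      have := hk2 i
      omega
    have h2 : ∑ i : ZMod l, (d + 1) = l * (d + 1) := by simp [ZMod.card]
    have h3 : l * (d + 1) = n + 1 := by
      rw [← hnm]
      exact congrArg (fun z => z * (d + 1)) hlm
    rw [h2] at h1
    omega
  have hex : ∃ i, d + 1 - k i ≠ 0 := by
    by_contra h1
    push Not at h1
    rw [Finset.sum_eq_zero (fun i _ => h1 i)] at hdef
    omega
  obtain ⟨i, hi⟩ := hex
  have h1 : d + 1 - k i ≤ ∑ i, (d + 1 - k i) :=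
    Finset.single_le_sum (f := fun i => d + 1 - k i) (fun _ _ => Nat.zero_le _) (Finset.mem_univ i)
  have h2 := hk3 i
  have h3 := hk2 i
  omega

theorem hole_isGirth {d g : ℕ} (hd : 2 ≤ d) (hg : 2 ≤ g) :
    IsGirth (hole ((d + 1) * (g - 1) - 1) d) g :=
  ⟨hole_cycle hd hg, fun _ h => hole_girth_ge hd hg h⟩

/-- `hole n d` is not isomorphic to a digraph `circ n' d'`. -/
theorem hole_not_circ {n d n' d' : ℕ} (hd : 2 ≤ d) (hn : 2 * d + 2 < n)
    (e : ZMod n ≃ ZMod n') (he : ∀ x y, hole n d x y ↔ circ n' d' (e x) (e y)) : False := by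
  have hd' : 1 ≤ d' := by
    by_contra h
    have h1 : hole n d 0 1 := ⟨1, le_rfl, by omega, by omega, by simp⟩
    obtain ⟨k, h2, h3, -⟩ := (he 0 1).1 h1
    omega
  set u := e.symm 0 with hu
  set v := e.symm 1 with hv
  have huv : hole n d u v := by
    rw [he, hu, hv]
    simp only [Equiv.apply_symm_apply]
    exact ⟨1, le_rfl, hd', by simp⟩
  have hall : ∀ w, hole n d u w → w = v ∨ hole n d v w := by
    intro w hw
    rw [he, hu] at hw
    simp only [Equiv.apply_symm_apply] at hw
    obtain ⟨k, h1, h2, h3⟩ := hw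
    rcases Nat.eq_or_lt_of_le h1 with h4 | h4
    · left
      rw [hv, Equiv.eq_symm_apply, h3, ← h4]
      simp
    · right
      rw [he, hv]
      simp only [Equiv.apply_symm_apply]
      refine ⟨k - 1, by omega, by omega, ?_⟩
      rw [h3]
      have h5 : (k : ZMod n') = ((k - 1 : ℕ) : ZMod n') + 1 := by
        rw [← Nat.cast_one (R := ZMod n'), ← Nat.cast_add, Nat.sub_add_cancel (by omega)]
      rw [h5]; ring
  obtain ⟨t, ht1, ht2, ht3, ht4⟩ := huv
  have key : ∀ a : ℕ, 1 ≤ a → a ≤ d + 1 → a ≠ d → a ≠ t →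
      ∃ b : ℕ, 1 ≤ b ∧ b ≤ d + 1 ∧ b ≠ d ∧ a = t + b := by
    intro a ha1 ha2 ha3 ha4
    rcases hall (u + (a : ZMod n)) ⟨a, ha1, ha2, ha3, rfl⟩ with h1 | h1
    · exfalso
      rw [ht4] at h1
      exact ha4 (natCast_inj_of_lt (by omega) (by omega) (add_left_cancel h1))
    · obtain ⟨b, hb1, hb2, hb3, hb4⟩ := h1
      refine ⟨b, hb1, hb2, hb3, ?_⟩
      rw [ht4, add_assoc, ← Nat.cast_add] at hb4
      exact natCast_inj_of_lt (by omega) (by omega) (add_left_cancel hb4)
  by_cases h1 : t = 1
  · subst h1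
    obtain ⟨b, hb1, hb2, hb3, hb4⟩ := key (d + 1) (by omega) le_rfl (by omega) (by omega)
    omega
  · obtain ⟨b, hb1, hb2, hb3, hb4⟩ := key 1 le_rfl (by omega) (by omega) (fun h => h1 h.symm)
    omega

/-- An isomorphism of `hole n d` with a lexicographic product is trivial in one of the factors. -/
theorem hole_block {n d : ℕ} (hd : 2 ≤ d) (hn : 2 * d + 2 < n) {U W : Type}
    {Z : Arcs U} {Y : Arcs W} (e : ZMod n ≃ U × W)
    (he : ∀ x y, hole n d x y ↔ lexProd Z Y (e x) (e y)) :
    (∀ a b : U, a = b) ∨ (∀ a b : W, a = b) := by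
  have : NeZero n := ⟨by omega⟩
  by_contra hcon
  push Not at hcon
  obtain ⟨⟨a, b, hab⟩, ⟨w, w', hww⟩⟩ := hcon
  have hblk : ∀ x x' y, (e x).1 = (e x').1 → (e x).1 ≠ (e y).1 → hole n d x y → hole n d x' y := by
    intro x x' y h1 h2 h3
    rw [he] at h3 ⊢
    rcases h3 with h3 | ⟨h3, -⟩
    · left; rw [← h1]; exact h3
    · exact absurd h3 h2
  -- a vertex `u` with `u` and `u + 1` in different blocks
  have hex : ∃ u : ZMod n, (e u).1 ≠ (e (u + 1)).1 := by
    by_contra h
    push Not at h
    have h1 : ∀ k : ℕ, (e (k : ZMod n)).1 = (e 0).1 := by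
      intro k
      induction k with
      | zero => simp
      | succ k ih =>
        push_cast
        rw [← h, ih]
    have h2 : ∀ x : ZMod n, (e x).1 = (e 0).1 := by
      intro x
      have := h1 x.val
      rwa [ZMod.natCast_zmod_val] at this
    apply hab
    have h3 := h2 (e.symm (a, w))
    have h4 := h2 (e.symm (b, w))
    simp only [Equiv.apply_symm_apply] at h3 h4
    rw [h3, h4]
  obtain ⟨u, hu⟩ := hex
  obtain ⟨v, hvu, hv⟩ : ∃ v, v ≠ u ∧ (e u).1 = (e v).1 := by
    by_cases h : (e u).2 = w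
    · refine ⟨e.symm ((e u).1, w'), ?_, by simp⟩
      intro h1
      have h2 := congrArg e h1
      simp only [Equiv.apply_symm_apply] at h2
      apply hww
      rw [← h, ← h2]
    · refine ⟨e.symm ((e u).1, w), ?_, by simp⟩
      intro h1
      have h2 := congrArg e h1
      simp only [Equiv.apply_symm_apply] at h2
      apply h
      rw [← h2]
  have h1 : hole n d v (u + 1) :=
    hblk u v (u + 1) hv hu ⟨1, le_rfl, by omega, by omega, by simp⟩
  obtain ⟨s, hs1, hs2, hs3, hs4⟩ := h1
  have hs5 : s ≠ 1 := by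
    rintro rfl
    apply hvu
    push_cast at hs4
    exact (add_right_cancel hs4).symm
  by_cases hw : (e u).1 = (e (u + ((d + 1 : ℕ) : ZMod n))).1
  · have h2 : hole n d (u + ((d + 1 : ℕ) : ZMod n)) (u + 1) :=
      hblk u _ (u + 1) hw hu ⟨1, le_rfl, by omega, by omega, by simp⟩
    obtain ⟨r, hr1, hr2, hr3, hr4⟩ := h2
    have h3 : ((0 : ℕ) : ZMod n) = ((d + r : ℕ) : ZMod n) := by
      push_cast at hr4 ⊢
      linear_combination hr4
    have := natCast_inj_of_lt (by omega) (by omega) h3
    omega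
  · have h2 : hole n d v (u + ((d + 1 : ℕ) : ZMod n)) :=
      hblk u v _ hv hw ⟨d + 1, by omega, le_rfl, by omega, rfl⟩
    obtain ⟨r, hr1, hr2, hr3, hr4⟩ := h2
    have h3 : ((d + s : ℕ) : ZMod n) = ((r : ℕ) : ZMod n) := by
      push_cast at hr4 hs4 ⊢
      linear_combination hr4 - hs4
    have := natCast_inj_of_lt (by omega) (by omega) h3
    omega

/-- `hole n d` is not in the class `L`. -/
theorem hole_not_InL {n d : ℕ} (hd : 2 ≤ d) (hn : 2 * d + 2 < n) : ¬ InL (hole n d) := by
  rintro ⟨W, Y, hY, e, he⟩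
  induction hY with
  | base n' d' h => exact hole_not_circ hd hn e he
  | step n' d' h W Y hY ih =>
    have hloop : ∀ x : ZMod n, ¬ hole n d x x := by
      rintro x ⟨k, h1, h2, h3, h4⟩
      have h5 : ((0 : ℕ) : ZMod n) = ((k : ℕ) : ZMod n) := by
        push_cast
        linear_combination h4
      have := natCast_inj_of_lt (by omega) (by omega) h5
      omega
    rcases hole_block hd hn e he with h1 | h1
    · -- the first factor is trivial
      have hx0 : ∀ a : ZMod n', a = 0 := fun a => h1 a 0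
      refine ih ⟨fun x => (e x).2, fun w => e.symm (0, w), ?_, ?_⟩ ?_
      · intro x
        have : (0, (e x).2) = e x := by
          rw [← hx0 (e x).1]
        simp [this]
      · intro w; simp
      · intro x y
        rw [he]
        constructor
        · rintro (h2 | ⟨-, h2⟩)
          · exfalso
            apply hloop x
            rw [he]
            left
            rw [h1 (e x).1 (e y).1] at h2 ⊢
            exact h2
          · exact h2
        · intro h2
          exact Or.inr ⟨h1 _ _, h2⟩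
    · -- the second factor is trivial
      have w0 : W := (e 0).2
      refine hole_not_circ hd hn (n' := n') (d' := d')
        ⟨fun x => (e x).1, fun a => e.symm (a, w0), ?_, ?_⟩ ?_
      · intro x
        have : ((e x).1, w0) = e x := by
          rw [h1 w0 (e x).2]
        simp [this]
      · intro a; simp
      · intro x y
        rw [he]
        constructor
        · rintro (h2 | ⟨h2, h3⟩)
          · exact h2
          · exfalso
            have hxy : x = y := e.injective (Prod.ext h2 (h1 _ _))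
            subst hxy
            apply hloop x
            rw [he]
            exact Or.inr ⟨rfl, h3⟩
        · intro h2
          exact Or.inl h2

/-- The bound `(d+1)(g-1)-1` is attained outside the class `L`. -/
theorem sharp {d g : ℕ} (hd : 2 ≤ d) (hg : 4 ≤ g) :
    ∃ X : Arcs (ZMod ((d + 1) * (g - 1) - 1)),
      VertexTransitive X ∧ (∀ v, outdeg X v = d) ∧ IsGirth X g ∧ ¬ InL X := by
  have h1 : (d + 1) * 3 ≤ (d + 1) * (g - 1) := Nat.mul_le_mul_left _ (by omega)
  exact ⟨hole _ d, hole_vt _ d, hole_outdeg (by omega) (by omega), hole_isGirth hd (by omega),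
    hole_not_InL hd (by omega)⟩

end Pool.Agent.H52.VTD
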