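import Pool.Agent.H52.VTD.Below

/-!
The parameters of a chain are determined by its isomorphism class.
-/

namespace Pool.Agent.H52.VTD

open Pool.Agent.Results.MP_81f9fb_co.GirthBound

theorem circ_prime {N e : ℕ} (he : 1 ≤ e) (hN : 2 * e + 2 ≤ N) (A : Set (ZMod N))
    (hA : ∀ x, x ∉ A → ∀ a ∈ A, ∀ a' ∈ A, circ N e a x → circ N e a' x) (hne : A.Nonempty)
    (hx : ∃ x, x ∉ A) : ∀ a ∈ A, ∀ a' ∈ A, a = a' := by
  have : NeZero N := ⟨by omega⟩
  have hex : ∃ u, u ∈ A ∧ u + 1 ∉ A := by
    by_contra h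
    push Not at h
    obtain ⟨a, ha⟩ := hne
    have h1 : ∀ k : ℕ, a + (k : ZMod N) ∈ A := by
      intro k
      induction k with
      | zero => simpa using ha
      | succ k ih =>
        have := h _ ih
        push_cast
        rwa [← add_assoc]
    obtain ⟨x, hx⟩ := hx
    apply hx
    have := h1 (x - a).val
    rw [ZMod.natCast_zmod_val] at this
    simpa using this
  obtain ⟨u, hu, hu1⟩ := hex
  have key : ∀ v ∈ A, v = u := by
    intro v hv
    by_contra hvu
    obtain ⟨r, hr1, hr2, hr3⟩ := hA _ hu1 u hu v hv ⟨1, le_rfl, he, by simp⟩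
    have hr4 : r ≠ 1 := by
      rintro rfl
      apply hvu
      push_cast at hr3
      exact (add_right_cancel hr3).symm
    by_cases h1 : u + (e : ZMod N) ∈ A
    · obtain ⟨q, hq1, hq2, hq3⟩ := hA _ hu1 u hu _ h1 ⟨1, le_rfl, he, by simp⟩
      have h3 : ((1 : ℕ) : ZMod N) = ((e + q : ℕ) : ZMod N) := by
        push_cast
        linear_combination hq3
      have := natCast_inj' (by omega) (by omega) h3
      omega
    · obtain ⟨q, hq1, hq2, hq3⟩ := hA _ h1 u hu v hv ⟨e, he, le_rfl, rfl⟩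
      have h3 : ((e + r : ℕ) : ZMod N) = ((q + 1 : ℕ) : ZMod N) := by
        push_cast
        linear_combination hq3 - hr3
      have := natCast_inj' (by omega) (by omega) h3
      omega
  intro a ha a' ha'
  rw [key a ha, key a' ha']

theorem blocks {N e N' e' : ℕ} (he : 1 ≤ e) (hN : 2 * e + 2 ≤ N) (he' : 1 ≤ e')
    (hN' : 2 * e' + 2 ≤ N') {W W' : Type} [Nonempty W'] {Y : Arcs W} {Y' : Arcs W'}
    (f : ZMod N × W ≃ ZMod N' × W')
    (hf : ∀ p q, lexProd (circ N e) Y p q ↔ lexProd (circ N' e') Y' (f p) (f q))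
    (x : ZMod N) (w w1 : W) : (f (x, w)).1 = (f (x, w1)).1 := by
  have h1x : x + 1 ≠ x := by
    intro h
    have h3 : ((1 : ℕ) : ZMod N) = ((0 : ℕ) : ZMod N) := by
      push_cast
      linear_combination h
    have := natCast_inj' (by omega) (by omega) h3
    omega
  set A : Set (ZMod N') := {u | ∃ w, (f (x, w)).1 = u} with hA
  have hmod : ∀ z, z ∉ A → ∀ a ∈ A, ∀ a' ∈ A, circ N' e' a z → circ N' e' a' z := by
    rintro z hz a ⟨v, hv⟩ a' ⟨v', hv'⟩ haz
    obtain ⟨y⟩ := (inferInstance : Nonempty W')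
    set p := f.symm (z, y) with hp
    have hfp : f p = (z, y) := by rw [hp, Equiv.apply_symm_apply]
    have hpx : x ≠ p.1 := by
      intro h
      apply hz
      refine ⟨p.2, ?_⟩
      rw [h]
      change (f p).1 = z
      rw [hfp]
    have h2 : lexProd (circ N e) Y (x, v) p := by
      rw [hf, hfp]
      left
      rw [hv]
      exact haz
    have h3 : lexProd (circ N e) Y (x, v') p := by
      rcases h2 with h2 | ⟨h2, -⟩
      · exact Or.inl h2
      · exact absurd h2 hpx
    rw [hf, hfp] at h3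
    rcases h3 with h3 | ⟨h3, -⟩
    · rw [hv'] at h3
      exact h3
    · exfalso
      apply hz
      exact ⟨v', h3⟩
  by_cases hall : ∃ z, z ∉ A
  · exact circ_prime he' hN' A hmod ⟨_, w, rfl⟩ hall _ ⟨w, rfl⟩ _ ⟨w1, rfl⟩
  · exfalso
    push Not at hall
    set p : ZMod N × W := (x + 1, w) with hp
    obtain ⟨v, hv⟩ := hall ((f p).1 - 1)
    obtain ⟨v', hv'⟩ := hall ((f p).1 + 1)
    have h2 : lexProd (circ N e) Y (x, v) p := by
      rw [hf]
      left
      rw [hv]
      exact ⟨1, le_rfl, he', by simp⟩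
    have h3 : lexProd (circ N e) Y (x, v') p := by
      rcases h2 with h2 | ⟨h2, -⟩
      · exact Or.inl h2
      · exact absurd h2.symm h1x
    rw [hf] at h3
    rcases h3 with ⟨k, h4, h5, h6⟩ | ⟨h3, -⟩
    · rw [hv'] at h6
      have h7 : ((0 : ℕ) : ZMod N') = ((1 + k : ℕ) : ZMod N') := by
        push_cast
        linear_combination h6
      have := natCast_inj' (by omega) (by omega) h7
      omega
    · have h3' : (f (x, v')).1 = (f p).1 := h3
      rw [hv'] at h3'
      have h7 : ((1 : ℕ) : ZMod N') = ((0 : ℕ) : ZMod N') := by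
        push_cast
        linear_combination h3'
      have := natCast_inj' (by omega) (by omega) h7
      omega

theorem unique_step {N e N' e' : ℕ} (he : 1 ≤ e) (hN : 2 * e + 2 ≤ N) (he' : 1 ≤ e')
    (hN' : 2 * e' + 2 ≤ N') {W W' : Type} [Nonempty W] [Nonempty W'] {Y : Arcs W} {Y' : Arcs W'}
    (h : Iso (lexProd (circ N e) Y) (lexProd (circ N' e') Y')) :
    N = N' ∧ e = e' ∧ Iso Y Y' := by
  obtain ⟨f, hf⟩ := h
  have hf' : ∀ p q, lexProd (circ N' e') Y' p q ↔ lexProd (circ N e) Y (f.symm p) (f.symm q) := by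
    intro p q
    rw [hf]
    simp
  obtain ⟨w0⟩ := (inferInstance : Nonempty W)
  obtain ⟨w0'⟩ := (inferInstance : Nonempty W')
  have hb := blocks he hN he' hN' f hf
  have hb' := blocks he' hN' he hN f.symm hf'
  have hinv : ∀ x w, (f.symm ((f (x, w0)).1, w)).1 = x := by
    intro x w
    rw [hb' _ w (f (x, w0)).2]
    change (f.symm (f (x, w0))).1 = x
    rw [Equiv.symm_apply_apply]
  have hinv' : ∀ x w, (f ((f.symm (x, w0')).1, w)).1 = x := by
    intro x w
    rw [hb _ w (f.symm (x, w0')).2]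
    change (f (f.symm (x, w0'))).1 = x
    rw [Equiv.apply_symm_apply]
  let φ : ZMod N ≃ ZMod N' :=
    ⟨fun x => (f (x, w0)).1, fun x => (f.symm (x, w0')).1, fun x => hinv x w0', fun x => hinv' x w0⟩
  have hφ : ∀ x w, (f (x, w)).1 = φ x := fun x w => hb x w w0
  have h1 : NeZero N := ⟨by omega⟩
  have h2 : NeZero N' := ⟨by omega⟩
  have hNN : N = N' := by
    have := Fintype.card_congr φ
    rwa [ZMod.card, ZMod.card] at this
  have hee : e = e' := by
    have h3 : ∀ x y, circ N e x y ↔ circ N' e' (φ x) (φ y) := by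
      intro x y
      by_cases hxy : x = y
      · subst hxy
        constructor
        · intro h; exact absurd h (circ_loop (by omega) x)
        · intro h; exact absurd h (circ_loop (by omega) _)
      · have h4 := hf (x, w0) (y, w0)
        constructor
        · intro h
          rcases h4.1 (Or.inl h) with h5 | ⟨h5, -⟩
          · exact h5
          · exact absurd (φ.injective h5) hxy
        · intro h
          rcases h4.2 (Or.inl h) with h5 | ⟨h5, -⟩
          · exact h5
          · exact absurd h5 hxy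
    have h5 := iso_outdeg φ h3 0
    rwa [circ_outdeg (by omega), circ_outdeg (by omega)] at h5
  refine ⟨hNN, hee, ⟨fun w => (f (0, w)).2, fun w => (f.symm (φ 0, w)).2, ?_, ?_⟩, ?_⟩
  · intro w
    have h3 : (φ 0, (f (0, w)).2) = f (0, w) := Prod.ext (hφ 0 w).symm rfl
    change (f.symm (φ 0, (f (0, w)).2)).2 = w
    rw [h3, Equiv.symm_apply_apply]
  · intro w
    have h3 : (0, (f.symm (φ 0, w)).2) = f.symm (φ 0, w) := by
      refine Prod.ext ?_ rfl
      exact (hinv 0 w).symm
    change (f (0, (f.symm (φ 0, w)).2)).2 = w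
    rw [h3, Equiv.apply_symm_apply]
  · intro a b
    have h4 := hf (0, a) (0, b)
    constructor
    · intro h
      rcases h4.1 (Or.inr ⟨rfl, h⟩) with h5 | ⟨-, h5⟩
      · rw [hφ, hφ] at h5
        exact absurd h5 (circ_loop (by omega) _)
      · exact h5
    · intro h
      rcases h4.2 (Or.inr ⟨by rw [hφ, hφ], h⟩) with h5 | ⟨-, h5⟩
      · exact absurd h5 (circ_loop (by omega) _)
      · exact h5

theorem iso_symm {V W : Type} {X : Arcs V} {Y : Arcs W} (h : Iso X Y) : Iso Y X := by
  obtain ⟨f, hf⟩ := h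
  refine ⟨f.symm, ?_⟩
  intro x y
  rw [hf]
  simp

theorem iso_trans {U V W : Type} {Z : Arcs U} {X : Arcs V} {Y : Arcs W} (h : Iso Z X)
    (h' : Iso X Y) : Iso Z Y := by
  obtain ⟨f, hf⟩ := h
  obtain ⟨f', hf'⟩ := h'
  refine ⟨f.trans f', ?_⟩
  intro x y
  rw [hf, hf']
  rfl

/-- A chain is not isomorphic to an empty digraph. -/
theorem chain_not_empty {g : ℕ} {l : List ℕ} {e s m : ℕ} (hg : 2 ≤ g) {W : Type} {Y : Arcs W}
    (h : Chain g l e s m W Y) {k : ℕ} (hk : 1 ≤ k) (hi : Iso (circ k 0) Y) : False := by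
  obtain ⟨-, ⟨w⟩, -, -, d, h1, h2, -⟩ := chain_data hg h
  obtain ⟨f, hf⟩ := hi
  have h3 := iso_outdeg f hf 0
  rw [circ_outdeg (by omega), h2] at h3
  omega

theorem chain_unique {g : ℕ} (hg : 4 ≤ g) {l : List ℕ} {e s m : ℕ} {W : Type} {Y : Arcs W}
    (h : Chain g l e s m W Y) : ∀ (l' : List ℕ) (e' s' m' : ℕ) (W' : Type) (Y' : Arcs W'),
      Chain g l' e' s' m' W' Y' → Iso Y Y' → l = l' ∧ e = e' ∧ s = s' ∧ m = m' := by
  have hbig : ∀ a : ℕ, 1 ≤ a → 2 * a + 2 ≤ a * (g - 1) + 1 := by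
    intro a ha
    have : a * 3 ≤ a * (g - 1) := Nat.mul_le_mul_left _ (by omega)
    omega
  induction h with
  | last e s m he hm =>
    have i1 : NeZero m := ⟨by omega⟩
    have b1 := hbig e he
    intro l' e' s' m' W' Y' h' hi
    cases h' with
    | last _ _ _ he' hm' =>
      have i2 : NeZero m' := ⟨by omega⟩
      have b2 := hbig e' he'
      obtain ⟨h1, h2, h3⟩ := unique_step he (by omega) he' (by omega) hi
      subst h2
      obtain ⟨f, -⟩ := h3
      have h4 := Fintype.card_congr f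
      rw [ZMod.card, ZMod.card] at h4
      exact ⟨rfl, rfl, by omega, h4⟩
    | step a l _ _ _ ha W Y hY =>
      exfalso
      have b2 := hbig a ha
      obtain ⟨-, i2, -⟩ := chain_data (by omega) hY
      obtain ⟨-, -, h3⟩ := unique_step he (by omega) ha (by omega) hi
      exact chain_not_empty (by omega) hY hm h3
  | step a l e s m ha W Y hY ih =>
    have b1 := hbig a ha
    obtain ⟨-, i1, -⟩ := chain_data (by omega) hY
    intro l' e' s' m' W' Y' h' hi
    cases h' with
    | last _ _ _ he' hm' =>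
      exfalso
      have i2 : NeZero m' := ⟨by omega⟩
      have b2 := hbig e' he'
      obtain ⟨-, -, h3⟩ := unique_step ha (by omega) he' (by omega) hi
      exact chain_not_empty (by omega) hY hm' (iso_symm h3)
    | step a' l' _ _ _ ha' W' Y' hY' =>
      have b2 := hbig a' ha'
      obtain ⟨-, i2, -⟩ := chain_data (by omega) hY'
      obtain ⟨-, h2, h3⟩ := unique_step ha (by omega) ha' (by omega) hi
      obtain ⟨h4, h5⟩ := ih l' e' s' m' W' Y' hY' h3
      exact ⟨by rw [h2, h4], h5⟩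

theorem isoChain_unique {g : ℕ} (hg : 4 ≤ g) {V : Type} {X : Arcs V} {l l' : List ℕ}
    {e s m e' s' m' : ℕ} (h : IsoChain g l e s m X) (h' : IsoChain g l' e' s' m' X) :
    l = l' ∧ e = e' ∧ s = s' ∧ m = m' := by
  obtain ⟨W, Y, hY, hi⟩ := h
  obtain ⟨W', Y', hY', hi'⟩ := h'
  exact chain_unique hg hY _ _ _ _ W' Y' hY' (iso_trans (iso_symm hi) hi')

end Pool.Agent.H52.VTD
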